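import Mathlib

namespace Pool.Agent.Results.MP_06047d_an.ExtraPeriods

/-- `x` is a solution of `x_{n+k} = max {x_{n+k-1}, ..., x_{n+1}, 0} - x_n`, i.e. for every `n`
the number `x_{n+k} + x_n` is the greatest element of `{x_{n+k-1}, ..., x_{n+1}, 0}`. -/
def IsSolution (k : ℕ) (x : ℕ → ℝ) : Prop :=
  ∀ n, IsGreatest (insert 0 {y : ℝ | ∃ j, 1 ≤ j ∧ j < k ∧ y = x (n + j)}) (x (n + k) + x n)

/-- The set of (least) periods of periodic solutions. -/
def Per (k : ℕ) : Set ℕ :=
  {N | ∃ x : ℕ → ℝ, IsSolution k x ∧ IsLeast {N : ℕ | 1 ≤ N ∧ ∀ n, x (n + N) = x n} N}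

/-- The set on the right-hand side of Q1 (`(3 - (-1)^k)/2` is `1` for even `k` and `2` for
odd `k`). -/
def Predicted (k : ℕ) : Set ℕ :=
  {1, if Even k then 1 else 2, 2 * k, 3 * k - 1} ∪
    {N | ∃ a b : ℕ, 1 ≤ a ∧ 1 ≤ b ∧ Nat.gcd a b = 1 ∧ N = (3 * k - 2) * a + (3 * k - 1) * b}

/-- Decidable criterion for periodic integer solutions given by a list of length `N`. -/
def check (k N : ℕ) (l : List ℤ) : Bool :=
  (List.range N).all (fun r =>
    decide (0 ≤ l.getD ((r + k) % N) 0 + l.getD r 0) &&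
    (List.range k).all (fun j => j == 0 ||
      decide (l.getD ((r + j) % N) 0 ≤ l.getD ((r + k) % N) 0 + l.getD r 0)) &&
    (decide (l.getD ((r + k) % N) 0 + l.getD r 0 = 0) ||
      (List.range k).any (fun j => !(j == 0) &&
        decide (l.getD ((r + j) % N) 0 = l.getD ((r + k) % N) 0 + l.getD r 0)))) &&
  (List.range N).all (fun p => p == 0 ||
    (List.range N).any (fun r => !decide (l.getD ((r + p) % N) 0 = l.getD r 0)))

lemma mem_Per_of_check {k N : ℕ} (hN : 1 ≤ N) {l : List ℤ} (h : check k N l = true) :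
    N ∈ Per k := by
  unfold check at h
  simp only [Bool.and_eq_true, List.all_eq_true, List.mem_range, List.any_eq_true,
    Bool.or_eq_true, decide_eq_true_eq, Bool.not_eq_true', beq_iff_eq, beq_eq_false_iff_ne,
    decide_eq_false_iff_not] at h
  obtain ⟨h1, h2⟩ := h
  have hmod : ∀ n, n % N < N := fun n => Nat.mod_lt n hN
  refine ⟨fun n => ((l.getD (n % N) 0 : ℤ) : ℝ), fun n => ?_, ⟨hN, fun n => ?_⟩, ?_⟩
  · obtain ⟨⟨ha, hb⟩, hc⟩ := h1 (n % N) (hmod n)
    have hs : ∀ j, (n % N + j) % N = (n + j) % N := fun j => by rw [Nat.mod_add_mod]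
    simp only [hs] at ha hb hc
    constructor
    · rcases hc with hc | ⟨j, hj, hj0, hc⟩
      · left
        simp only
        exact_mod_cast hc
      · right
        refine ⟨j, Nat.pos_of_ne_zero hj0, hj, ?_⟩
        simp only
        exact_mod_cast hc.symm
    · rintro y (rfl | ⟨j, hj1, hj, rfl⟩)
      · simp only
        exact_mod_cast ha
      · rcases hb j hj with h0 | h0
        · omega
        · simp only
          exact_mod_cast h0
  · simp only [Nat.add_mod_right]
  · rintro p ⟨hp1, hp⟩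
    by_contra hlt
    rw [not_le] at hlt
    rcases h2 p hlt with h0 | ⟨r, hr, hne⟩
    · omega
    · apply hne
      have h3 := hp r
      simp only [Nat.mod_eq_of_lt hr] at h3
      exact_mod_cast h3

/-- A solution of period `2 k / d`. -/
lemma small_period {k d : ℕ} (hk : 5 ≤ k) (hd : Odd d) (hd3 : 3 ≤ d) (hdk : d ∣ k) :
    2 * (k / d) ∈ Per k := by
  obtain ⟨m, hm⟩ := hdk
  have hd0 : 0 < d := by omega
  have hkd : k / d = m := by rw [hm, Nat.mul_div_cancel_left m hd0]
  rw [hkd]
  have hm0 : 1 ≤ m := by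
    rcases Nat.eq_zero_or_pos m with h | h
    · rw [h] at hm; omega
    · exact h
  obtain ⟨e, he⟩ := hd
  -- `k ≡ m` modulo `2 m`
  have hkm : ∀ n, (n + k) % (2 * m) = (n + m) % (2 * m) := by
    intro n
    have : n + k = (n + m) + (2 * m) * e := by rw [hm, he]; ring
    rw [this, Nat.add_mul_mod_self_left]
  have hk1 : 2 * m < k := by rw [hm]; nlinarith
  refine ⟨fun n => if n % (2 * m) < m then 0 else 1, fun n => ?_, ⟨by omega, fun n => ?_⟩, ?_⟩
  · have hsum : (if (n + k) % (2 * m) < m then (0 : ℝ) else 1) +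
        (if n % (2 * m) < m then (0 : ℝ) else 1) = 1 := by
      rw [hkm n]
      have h1 : n % (2 * m) < 2 * m := Nat.mod_lt _ (by omega)
      have h2 : (n + m) % (2 * m) = if n % (2 * m) < m then n % (2 * m) + m
          else n % (2 * m) - m := by
        rw [Nat.add_mod, Nat.mod_eq_of_lt (show m < 2 * m by omega)]
        split_ifs with h
        · exact Nat.mod_eq_of_lt (by omega)
        · rw [Nat.mod_eq_sub_mod (by omega), Nat.mod_eq_of_lt (by omega)]; omega
      rw [h2]
      split_ifs with h3 h4 h5 <;> first | omega | norm_num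
    simp only
    rw [hsum]
    constructor
    · right
      -- some index in the window is in the second half
      have h1 : n % (2 * m) < 2 * m := Nat.mod_lt _ (by omega)
      refine ⟨2 * m - 1 - n % (2 * m) + (if n % (2 * m) = 2 * m - 1 then 2 * m else 0), ?_, ?_, ?_⟩
      · split_ifs <;> omega
      · split_ifs <;> omega
      · have h4 : (n + (2 * m - 1 - n % (2 * m) +
            (if n % (2 * m) = 2 * m - 1 then 2 * m else 0))) % (2 * m) = 2 * m - 1 := by
          have h5 : n = 2 * m * (n / (2 * m)) + n % (2 * m) := (Nat.div_add_mod n (2 * m)).symm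
          split_ifs with h6
          · have : n + (2 * m - 1 - n % (2 * m) + 2 * m) = 2 * m - 1 + 2 * m * (n / (2 * m) + 1) := by
              rw [mul_add]; omega
            rw [this, Nat.add_mul_mod_self_left, Nat.mod_eq_of_lt (by omega)]
          · have : n + (2 * m - 1 - n % (2 * m) + 0) = 2 * m - 1 + 2 * m * (n / (2 * m)) := by
              omega
            rw [this, Nat.add_mul_mod_self_left, Nat.mod_eq_of_lt (by omega)]
        rw [h4, if_neg (by omega)]
    · rintro y (rfl | ⟨j, -, -, rfl⟩)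
      · norm_num
      · split_ifs <;> norm_num
  · simp only [Nat.add_mod_right]
  · rintro p ⟨hp1, hp⟩
    by_contra hlt
    rw [not_le] at hlt
    -- compare at `0` and at `m - p`
    have h0 : (if (0 + p) % (2 * m) < m then (0 : ℝ) else 1) =
      if 0 % (2 * m) < m then (0 : ℝ) else 1 := hp 0
    have e1 : (0 + p) % (2 * m) = p := by rw [zero_add]; exact Nat.mod_eq_of_lt hlt
    have e2 : 0 % (2 * m) = 0 := Nat.zero_mod _
    have hpm : p < m := by
      by_contra h
      rw [if_neg (by rw [e1]; exact h), if_pos (by rw [e2]; omega)] at h0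
      exact one_ne_zero h0
    have h2 : (if (m - p + p) % (2 * m) < m then (0 : ℝ) else 1) =
      if (m - p) % (2 * m) < m then (0 : ℝ) else 1 := hp (m - p)
    have e3 : (m - p + p) % (2 * m) = m := by
      rw [show m - p + p = m by omega]; exact Nat.mod_eq_of_lt (by omega)
    have e4 : (m - p) % (2 * m) = m - p := Nat.mod_eq_of_lt (by omega)
    rw [if_neg (by rw [e3]; omega), if_pos (by rw [e4]; omega)] at h2
    exact one_ne_zero h2

lemma small_not_predicted {k d : ℕ} (hk : 5 ≤ k) (hd3 : 3 ≤ d) (hdk : d ∣ k) (hlt : d < k) :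
    2 * (k / d) ∉ Predicted k := by
  obtain ⟨m, hm⟩ := hdk
  have hd0 : 0 < d := by omega
  have hkd : k / d = m := by rw [hm, Nat.mul_div_cancel_left m hd0]
  rw [hkd]
  have hm2 : 2 ≤ m := by
    by_contra h
    have : m = 0 ∨ m = 1 := by omega
    rcases this with h | h <;> rw [h] at hm <;> omega
  have hk1 : 2 * m < k := by rw [hm]; nlinarith
  rintro (h | ⟨a, b, ha, hb, -, h⟩)
  · simp only [Set.mem_insert_iff, Set.mem_singleton_iff] at h
    rcases h with h | h | h | h
    · omega
    · split_ifs at h <;> omega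
    · omega
    · omega
  · have h1 : 3 * k - 2 ≤ (3 * k - 2) * a := Nat.le_mul_of_pos_right _ ha
    omega

/-- A solution of period `54` for `k = 5`. -/
def l5 : List ℤ := [1, 0, -1, 0, 1, 0, 1, 2, 2, 1, 2, 1, 0, 0, 1, -1, 0, 1, 1, 0, 2, 2, 1, 1, 2, 0, 0, 1, 1, -1,
  1, 1, 0, 0, 2, 1, 1, 2, 2, 0, 1, 1, 0, -1, 1, 0, 0, 1, 2, 1, 2, 2, 1, 0]

/-- A solution of period `19` for `k = 7`. -/
def l7 : List ℤ := [-1, 0, 1, 1, 0, 0, 1, 2, 2, 1, 1, 2, 2, 1, 0, 0, 1, 1, 0]

/-- A solution of period `22` for `k = 8`. -/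
def l8 : List ℤ := [-1, -1, 0, 1, 1, 0, 0, 1, 2, 3, 3, 2, 2, 3, 3, 2, 1, 0, 0, 1, 1, 0]

/-- Periods outside the predicted set: `54` for `k = 5`, `19` for `k = 7`, `22` for `k = 8`, and
`2 k / d` for every `k ≥ 5` with an odd divisor `d`, `3 ≤ d < k` (for instance `4` for `k = 6`).
In particular the inclusion of Q1 does not hold for all `k ≥ 5`. -/
theorem result :
    (54 ∈ Per 5 ∧ 54 ∉ Predicted 5) ∧ (19 ∈ Per 7 ∧ 19 ∉ Predicted 7) ∧
    (22 ∈ Per 8 ∧ 22 ∉ Predicted 8) ∧
    (∀ k d : ℕ, 5 ≤ k → Odd d → 3 ≤ d → d ∣ k → d < k →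
      2 * (k / d) ∈ Per k ∧ 2 * (k / d) ∉ Predicted k) ∧
    ¬ ∀ k : ℕ, 5 ≤ k → Per k ⊆ Predicted k := by
  have h5 : 54 ∈ Per 5 := mem_Per_of_check (l := l5) (by norm_num) (by decide +kernel)
  have h7 : 19 ∈ Per 7 := mem_Per_of_check (l := l7) (by norm_num) (by decide +kernel)
  have h8 : 22 ∈ Per 8 := mem_Per_of_check (l := l8) (by norm_num) (by decide +kernel)
  have n5 : 54 ∉ Predicted 5 := by
    rintro (h | ⟨a, b, ha, hb, hg, h⟩)
    · simp only [Set.mem_insert_iff, Set.mem_singleton_iff] at h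
      rcases h with h | h | h | h
      · omega
      · split_ifs at h <;> omega
      · omega
      · omega
    · have h1 : a = 2 ∧ b = 2 := by
        have : b ≤ 3 := by omega
        interval_cases b <;> omega
      rw [h1.1, h1.2] at hg
      norm_num at hg
  have n7 : 19 ∉ Predicted 7 := by
    rintro (h | ⟨a, b, ha, hb, hg, h⟩)
    · simp only [Set.mem_insert_iff, Set.mem_singleton_iff] at h
      rcases h with h | h | h | h
      · omega
      · split_ifs at h <;> omega
      · omega
      · omega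
    · omega
  have n8 : 22 ∉ Predicted 8 := by
    rintro (h | ⟨a, b, ha, hb, hg, h⟩)
    · simp only [Set.mem_insert_iff, Set.mem_singleton_iff] at h
      rcases h with h | h | h | h
      · omega
      · split_ifs at h <;> omega
      · omega
      · omega
    · omega
  exact ⟨⟨h5, n5⟩, ⟨h7, n7⟩, ⟨h8, n8⟩, fun k d hk hd hd3 hdk hlt =>
    ⟨small_period hk hd hd3 hdk, small_not_predicted hk hd3 hdk hlt⟩,
    fun h => n5 (h 5 le_rfl h5)⟩

end Pool.Agent.Results.MP_06047d_an.ExtraPeriods
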